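import Pool.Agent.Q48.RD.PWin3
import Pool.Agent.TH464.PW.Quad

/-!
# Primes `n ^ 3 + c` in several disjoint short intervals at once

Let `c ≥ 1` be an integer which is not a cube. We consider the primes `n ^ 3 + c` in several disjoint short intervals of `n` at once.

Let `g ≥ 2` be a base and `K` a large number of digits. For every `i < K` let `A i` be an arbitrary set of digits, such that the number
`|A 0| ⋯ |A (K - 1)|` of the integers `t < g ^ K` whose `i`-th digit belongs to `A i` for all `i < K` is at least `exp (- δ K) g ^ K`.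
Let `N ≤ g ^ (E K)` be arbitrary. We consider the numbers `x = N + t` with these `t`: they form a set with only
`y ^ (1 - δ')` elements in an interval of length `y = g ^ K`, which may be an arbitrarily small power of `x`.

Let `s_1, …, s_l ≥ 0` be different integers, `l ≥ 2` (for example `0, 1, …, l - 1`: adjacent intervals), and let `T ≤ g ^ (E K)`. We
count the `n` in the disjoint short intervals `(x + s_i T, x + (s_i + 1) T]`, `i ≤ l`, for which `n ^ 3 + c` is a prime (or an almost prime).
The conjecture of Bateman and Horn, on average over the shifts, predicts that these `l` numbers behave like independent random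
variables: the mean value over `x` of the product of their `k`-th powers should have the order of magnitude of the product of the
mean values, where one of these has the order of magnitude of `(T / K) ^ k` for `T ≥ K` and of `T / K` for `T ≤ K`. We prove, for all
these sets of `x`,

(1) the upper bound of this order for the primes: in particular, for `T ≤ K` at most the predicted proportion `C (T / K) ^ l` of the
`x` have such primes in all the `l` intervals at once;

(2) the exact order of magnitude for the almost primes;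

(3) that for at least `κ min (1, T / K) ^ l` of all these `x` EVERY one of the `l` intervals contains at least
`κ max (1, T / K)` such almost primes.
-/

set_option autoImplicit false

namespace Pool.Agent.Results.MP_4d57ea_nt.DisjointIntervals

open Filter Finset
open Pool.Agent.Q315.RD Pool.Agent.Q48.RD

/-- The number of the `n` with `x < n ≤ x + T` for which `n ^ 3 + c` is a prime. -/
def primesIn (c : ℕ) (x T : ℕ) : ℕ := ((Ioc x (x + T)).filter fun n => (n ^ 3 + c).Prime).card

open Classical in
/-- The number of the `n` with `x < n ≤ x + T` for which `n ^ 3 + c` has at most `r` prime factors, all larger than `y ^ (1 / r)`. -/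
noncomputable def almostPrimesIn (y r : ℕ) (c : ℕ) (x T : ℕ) : ℕ := ((Ioc x (x + T)).filter fun n => AlmostPrime y r (n ^ 3 + c)).card

open Classical in
/-- The integers `t < g ^ K` whose `i`-th digit belongs to `A i` for all `i < K`. -/
noncomputable def digitSet (g K : ℕ) (A : ℕ → Finset ℕ) : Finset ℕ := (range (g ^ K)).filter (HasDigits g K A)

/-- The predicted order of magnitude of the mean value of the `k`-th power for one interval: `T / K` for `T ≤ K` and `(T / K) ^ k`
for `T ≥ K`. -/
noncomputable def order (k T K : ℕ) : ℝ := min 1 ((T : ℝ) / K) * max 1 ((T : ℝ) / K) ^ k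

open Polynomial in
/-- `X ^ 3 + c` is irreducible when `c` is not a cube -/
lemma irr_cubic (c : ℕ) (hc : ∀ a : ℕ, a ^ 3 ≠ c) : Irreducible (X ^ 3 + C (c : ℤ) : ℤ[X]) := by
  have hmon : (X ^ 3 + C (c : ℤ) : ℤ[X]).Monic := monic_X_pow_add_C _ (by norm_num)
  have hdeg : (X ^ 3 + C (c : ℤ) : ℤ[X]).natDegree = 3 := natDegree_X_pow_add_C
  rw [hmon.irreducible_iff_roots_eq_zero_of_degree_le_three (by omega) (by omega)]
  rw [Multiset.eq_zero_iff_forall_notMem]
  intro x hx
  rw [mem_roots hmon.ne_zero, IsRoot.def] at hx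
  simp only [eval_add, eval_pow, eval_X, eval_C] at hx
  have h1 : (-x) ^ 3 = (c : ℤ) := by linarith [show (-x) ^ 3 = -(x ^ 3) by ring]
  have h2 : 0 ≤ -x := by
    by_contra h
    push Not at h
    have h3 : (-x) ^ 3 < 0 := by
      have h4 : 0 < (-x) * (-x) := mul_pos_of_neg_of_neg h h
      have : (-x) ^ 3 = (-x) * ((-x) * (-x)) := by ring
      rw [this]
      exact mul_neg_of_neg_of_pos h h4
    have : (0 : ℤ) ≤ c := Int.natCast_nonneg c
    linarith
  obtain ⟨a, ha⟩ := Int.eq_ofNat_of_zero_le h2
  rw [ha] at h1
  exact hc a (by exact_mod_cast h1)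

/-- **Primes and almost primes `n ^ 3 + c` in several disjoint short intervals at once.** -/
theorem result (c : ℕ) (hc : ∀ a : ℕ, a ^ 3 ≠ c) {l : ℕ} (hl : 2 ≤ l) (s : Fin l → ℕ) (hinj : Function.Injective s) (k : ℕ) (hk : 1 ≤ k) (E : ℕ) :
    ∃ δ : ℝ, 0 < δ ∧ ∃ r₀ : ℕ, 2 ≤ r₀ ∧ ∀ r : ℕ, r₀ ≤ r → ∀ g : ℕ, 2 ≤ g → ∃ κ C : ℝ, ∃ T₀ : ℕ, 0 < κ ∧ 0 < C ∧
      ∀ᶠ K : ℕ in atTop, ∀ N T : ℕ, N ≤ g ^ (E * K) → 1 ≤ T → T ≤ g ^ (E * K) →
        ∀ A : ℕ → Finset ℕ, (∀ i < K, A i ⊆ range g) → (g : ℝ) ^ K ≤ Real.exp (δ * K) * choices K A →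
        -- the primes
        ∑ t ∈ digitSet g K A, ∏ i, (primesIn c (N + t + s i * T) T : ℝ) ^ k ≤ C * order k T K ^ l * choices K A ∧
        -- the almost primes
        ∑ t ∈ digitSet g K A, ∏ i, (almostPrimesIn (g ^ K) r c (N + t + s i * T) T : ℝ) ^ k ≤ C * order k T K ^ l * choices K A ∧
        (T₀ ≤ T →
          κ * order k T K ^ l * choices K A ≤ ∑ t ∈ digitSet g K A, ∏ i, (almostPrimesIn (g ^ K) r c (N + t + s i * T) T : ℝ) ^ k ∧
          -- all the `l` intervals contain many almost prime values at once
          κ * min 1 ((T : ℝ) / K) ^ l * choices K A ≤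
            (((digitSet g K A).filter fun t => ∀ i, κ * max 1 ((T : ℝ) / K) ≤ almostPrimesIn (g ^ K) r c (N + t + s i * T) T).card : ℝ)) := by
  classical
  obtain ⟨δ, hδ, r0, hr0, H⟩ := winMoments (by omega : 0 < l) (Polynomial.X ^ 3 + Polynomial.C (c : ℤ))
    { irr := fun _ => irr_cubic c hc
      deg := fun _ => by rw [Polynomial.natDegree_X_pow_add_C]; norm_num
      lead := fun _ => by rw [(Polynomial.monic_X_pow_add_C _ (by norm_num)).leadingCoeff]; norm_num
      inj := fun i j _ => Subsingleton.elim i j
      adm := fun p hp => by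
        have hp2 := hp.two_le
        by_cases h2 : (p : ℤ) ∣ c
        · refine ⟨1, fun _ h => ?_⟩
          simp only [Polynomial.eval_add, Polynomial.eval_pow, Polynomial.eval_X, Polynomial.eval_C, Nat.cast_one, one_pow] at h
          have h3 := (Int.dvd_add_left h2).1 h
          have := Int.le_of_dvd one_pos h3
          omega
        · refine ⟨0, fun _ h => h2 ?_⟩
          simpa using h }
    (fun n => n ^ 3 + c) (fun n => by simp) (fun n => by
      rcases Nat.eq_zero_or_pos n with h | h
      · omega
      · have := Nat.le_self_pow (show 3 ≠ 0 by norm_num) n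
        omega) s hinj k hk E
  refine ⟨δ, hδ, r0, hr0, fun r hr g hg => ?_⟩
  obtain ⟨κ, C, T₀, hκ, hC, H⟩ := H r hr g hg
  refine ⟨κ, C, T₀, hκ, hC, ?_⟩
  filter_upwards [H] with K HK
  intro N T hN hT1 hT A hA1 hA2
  obtain ⟨h1, h2, h3⟩ := HK N T hN hT1 hT A ⟨hA1, hA2⟩
  have e1 : ∀ x, primesIn c x T = numIn (fun n => (n ^ 3 + c).Prime) x T := by
    intro x
    unfold primesIn numIn
    congr!
  have e2 : ∀ x, almostPrimesIn (g ^ K) r c x T = numIn (fun n => AlmostPrime (g ^ K) r (n ^ 3 + c)) x T := by
    intro x
    unfold almostPrimesIn numIn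
    congr!
  simp only [e1, e2]
  refine ⟨h1, h2, fun hgT => ⟨(h3 hgT).1, (h3 hgT).2.trans (le_of_eq ?_)⟩⟩
  congr! 2

end Pool.Agent.Results.MP_4d57ea_nt.DisjointIntervals
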