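import Pool.Agent.Q145.Shift

/-!
# Primes `m³ + k` in an arbitrary dense set of primes, `m` in short progressions inside an arbitrary dense set

Let `l ≥ 2`, `δ > 0` and `0 < ε ≤ 1`. There is `B` such that for all large `X`, all `N` with `(log X)^B ≤ N ≤ X^(1/12)`,
EVERY set `T` of at least `δ N` integers in `[1, N]` and EVERY set `P` of at least `δ X / log X` primes up to `X`, a
positive proportion of all integers `1 ≤ k ≤ X` is such that `k` is not a cube and `T` contains an `l`-term arithmetic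
progression, of difference at most `N^ε (log X)^B`, for all terms `m` of which `m³ + k` is a prime of the set `P`.
-/

set_option autoImplicit false

namespace Pool.Agent.Results.MP_4d57ea_nt.PolylogProgressions

open Finset Polynomial

/-- `T` contains the `l` terms of an arithmetic progression with difference between `1` and `D`, and `m³ + k` belongs
to `P` for each of these terms `m` -/
def Good (T P : Finset ℕ) (l : ℕ) (D : ℝ) (k : ℕ) : Prop :=
  ∃ n r : ℕ, 1 ≤ r ∧ (r : ℝ) ≤ D ∧ ∀ j < l, n + j * r ∈ T ∧ (n + j * r) ^ 3 + k ∈ P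

/-- an odd prime is not the sum of two positive cubes -/
lemma no_cube (p m a : ℕ) (hp : p.Prime) (hp2 : p ≠ 2) (hm : 1 ≤ m) (h : p = m ^ 3 + a ^ 3) (ha : 1 ≤ a) : False := by
  have e : ((p : ℤ)) = ((m : ℤ) + a) * ((m : ℤ) ^ 2 - m * a + (a : ℤ) ^ 2) := by
    rw [h]; push_cast; ring
  have hpi : Prime (p : ℤ) := Nat.prime_iff_prime_int.1 hp
  have hirr := hpi.irreducible
  rcases hirr.isUnit_or_isUnit e with h1 | h1
  · rcases Int.isUnit_iff.1 h1 with h2 | h2 <;> omega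
  · have hm' : (1 : ℤ) ≤ m := by exact_mod_cast hm
    have ha' : (1 : ℤ) ≤ a := by exact_mod_cast ha
    rcases Int.isUnit_iff.1 h1 with h2 | h2
    · have h3 : ((m : ℤ) - a) ^ 2 + m * a = 1 := by linarith
      have h4 : (m : ℤ) * a ≤ 1 := by nlinarith [sq_nonneg ((m : ℤ) - a)]
      have h5 : (m : ℤ) ≤ 1 := by nlinarith
      have h6 : (a : ℤ) ≤ 1 := by nlinarith
      have h7 : m = 1 := by omega
      have h8 : a = 1 := by omega
      rw [h7, h8] at h
      omega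
    · nlinarith [sq_nonneg ((m : ℤ) - a)]

open Classical in
/-- **A positive proportion of all `k`.** -/
theorem result (l : ℕ) (hl : 2 ≤ l) (δ ε : ℝ) (hδ : 0 < δ) (hε : 0 < ε) (hε1 : ε ≤ 1) :
    ∃ B : ℕ, ∃ c : ℝ, 0 < c ∧ ∃ X₀ : ℕ, ∀ X N : ℕ, X₀ ≤ X → Real.log X ^ B ≤ N → N ^ 12 ≤ X →
      ∀ T ⊆ Icc 1 N, δ * N ≤ T.card →
      ∀ P ⊆ Icc 1 X, (∀ p ∈ P, p.Prime) → δ * (X / Real.log X) ≤ P.card →
        c * X ≤ ((Icc 1 X).filter (fun k : ℕ => (∀ a : ℤ, (k : ℤ) ≠ a ^ 3) ∧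
          Good T P l ((N : ℝ) ^ ε * Real.log X ^ B) k)).card := by
  have hd : (X ^ 3 : ℤ[X]).natDegree = 3 := natDegree_X_pow 3
  obtain ⟨B, c, hc, X₀, h⟩ :=
    Pool.Agent.Q145.Shift.big (X ^ 3 : ℤ[X]) (by rw [hd]; norm_num) 2 l hl δ ε hδ hε hε1
  refine ⟨B, c, hc, X₀, fun X N hX hN hNX T hT hTc P hP hPp hPc => ?_⟩
  obtain ⟨G, hG, hGc, hGb⟩ := h X N hX hN (by rw [hd]; exact hNX) T hT hTc P hP hPp hPc
  refine hGc.trans ?_
  have hsub : G ⊆ (Icc 1 X).filter (fun k : ℕ => (∀ a : ℤ, (k : ℤ) ≠ a ^ 3) ∧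
      Good T P l ((N : ℝ) ^ ε * Real.log X ^ B) k) := by
    intro k hk
    rw [mem_filter]
    obtain ⟨hk2, n, r, h2, h3, h4⟩ := hGb k hk
    have h7 : ∀ j < l, n + j * r ∈ T ∧ ∃ p ∈ P, p ≠ 2 ∧ p = (n + j * r) ^ 3 + k := by
      intro j hj
      obtain ⟨h5, p, hp, hp2, hpe⟩ := h4 j hj
      refine ⟨h5, p, hp, hp2.ne', ?_⟩
      rw [eval_pow, eval_X] at hpe
      exact_mod_cast hpe
    refine ⟨hG hk, fun a ha => ?_, n, r, h2, h3, fun j hj => ?_⟩
    · obtain ⟨h8, p, hp, hp2, hpe⟩ := h7 0 (by omega)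
      have hk1 : 1 ≤ k := (mem_Icc.1 (hG hk)).1
      have ha1 : 1 ≤ a := by
        by_contra hcon
        have : a ^ 3 ≤ 0 := by
          have h9 : a ≤ 0 := by omega
          have : a ^ 3 = a * a ^ 2 := by ring
          rw [this]
          exact mul_nonpos_of_nonpos_of_nonneg h9 (sq_nonneg a)
        omega
      obtain ⟨a', rfl⟩ : ∃ a' : ℕ, a = a' := ⟨a.toNat, by omega⟩
      have hka : k = a' ^ 3 := by exact_mod_cast ha
      exact no_cube p (n + 0 * r) a' (hPp p hp) hp2 (mem_Icc.1 (hT h8)).1 (by rw [hpe, hka]) (by exact_mod_cast ha1)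
    · obtain ⟨h5, p, hp, _, hpe⟩ := h7 j hj
      exact ⟨h5, by rwa [← hpe]⟩
  exact_mod_cast card_le_card hsub

end Pool.Agent.Results.MP_4d57ea_nt.PolylogProgressions
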