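import Pool.Agent.Q25.UReg4
import Pool.Agent.Q25.Cube

/-!
# The laws of the almost prime values of `m ^ 3 + k`, uniformly in `k`

All integers `k` with `|k| ≤ X ^ E` which are not cubes and for which the sieve density of `m ^ 3 + k` is at most
`C / log X`. Call `m` good if `m ^ 3 + k` has no prime factor `≤ X ^ (1/r)`. In ALL intervals of length at least `X ^ θ`
the numbers of the good `m` in windows follow the Poisson law and the gaps between the good `m` are exponentially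
distributed, and almost all elements of an ARBITRARY set of good `m` (for instance of the `m` for which `m ^ 3 + k` is
prime) are regular points of this set, all this uniformly in `k`.
-/

set_option autoImplicit false

namespace Pool.Agent.Results.MP_4d57ea_nt.UniformLaws

open Finset Polynomial
open Pool.Agent.Q25.UReg (GoodP VP SmallDensity countP pois PoissonLawP GapLawP NoTr N RightOrder ConstantDensity
  badScales Irregular Sys)

/-- the polynomial `X ^ 3 + k` -/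
noncomputable def f (k : ℤ) : Fin 1 → ℤ[X] := fun _ => X ^ 3 + C k

lemma sys (k : ℤ) (hk : ∀ a : ℤ, k ≠ a ^ 3) (H : ℝ) (h1 : 1 ≤ H) (hkH : |(k : ℝ)| ≤ H) : Sys 3 H (f k) where
  irr i := Pool.Agent.Q25.Cube.irr k hk
  deg i := by
    unfold f
    rw [Pool.Agent.Q25.Cube.deg]
    norm_num
  degD i := by
    unfold f
    rw [Pool.Agent.Q25.Cube.deg]
  hgt i j := by
    have e : (f k i).coeff j = (if j = 3 then 1 else 0) + (if j = 0 then k else 0) := by
      unfold f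
      rw [coeff_add, coeff_C, coeff_X_pow]
    rw [e]
    split_ifs with h2 h3 h3
    · omega
    · push_cast
      rw [abs_one]
      exact h1
    · push_cast
      rw [zero_add]
      exact hkH
    · push_cast
      rw [abs_zero]
      linarith
  adm p hp := by
    by_contra hcon
    push Not at hcon
    have hv : ∀ m : ℤ, (p : ℤ) ∣ m ^ 3 + k := by
      intro m
      obtain ⟨i, hi⟩ := hcon m
      unfold f at hi
      simpa using hi
    have h2 := hv 0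
    have h3 := hv 1
    have h4 : (p : ℤ) ∣ 1 := by
      have h5 := dvd_sub h3 h2
      simpa using h5
    exact hp.one_lt.ne' (Nat.dvd_one.1 (by exact_mod_cast h4))

lemma noTr (k : ℤ) (U : ℝ) : NoTr (f k) U := by
  intro i j t ht _
  have e1 : f k i = f k j := rfl
  have hd : (f k j).natDegree ≠ 0 := by
    unfold f
    rw [Pool.Agent.Q25.Cube.deg]
    norm_num
  have h1 := Pool.Agent.Y879.GL.no_self (f k j) hd t (by omega)
  rw [e1]
  constructor
  · intro h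
    exact h1 (by nth_rewrite 1 [h]; exact Associated.refl _)
  · intro h
    apply h1
    nth_rewrite 1 [h]
    exact (Associated.refl _).neg_left

/-- **The laws of the almost prime values of `m ^ 3 + k`, uniformly in `k`.** -/
theorem result (E θ : ℝ) (hE : 0 < E) (hθ : 0 < θ) :
    (∀ (l₀ : ℕ) (x₀ ε : ℝ), 0 < ε → ∃ r₀ : ℕ, ∀ r : ℕ, r₀ ≤ r → ∀ C : ℝ, ∃ X₀ : ℕ, ∀ X : ℕ, X₀ ≤ X →
      ∀ k : ℤ, (∀ a : ℤ, k ≠ a ^ 3) → |(k : ℝ)| ≤ (X : ℝ) ^ E → VP (f k) r X ≤ C / Real.log X →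
        ∀ Z Y : ℕ, (X : ℝ) ^ θ ≤ Y → PoissonLawP (f k) r X Z Y x₀ ε ∧ GapLawP (f k) r X Z Y l₀ x₀ ε) ∧
    ∃ r₀ : ℕ, ∀ r : ℕ, r₀ ≤ r → ∀ C ε : ℝ, 0 < ε → ∃ c : ℝ, 0 < c ∧ ∀ δ : ℝ, 0 < δ → ∃ B X₀ : ℕ,
      ∀ X : ℕ, X₀ ≤ X → ∀ k : ℤ, (∀ a : ℤ, k ≠ a ^ 3) → |(k : ℝ)| ≤ (X : ℝ) ^ E → VP (f k) r X ≤ C / Real.log X →
        ∀ u Y : ℕ, (X : ℝ) ^ θ ≤ Y → Y ≤ X → Y ≤ u → ∀ A : Set ℕ, (∀ m ∈ A, GoodP (f k) r X m) →
          (N (Irregular A (VP (f k) r X) c δ B Y) u (u + Y) : ℝ) ≤ ε * (Y * VP (f k) r X) := by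
  have hone : ∀ X : ℕ, 1 ≤ X → (1 : ℝ) ≤ (X : ℝ) ^ E := fun X hX => Real.one_le_rpow (by exact_mod_cast hX) hE.le
  constructor
  · intro l₀ x₀ ε hε
    obtain ⟨r₀, _, h⟩ := Pool.Agent.Q25.UReg.poly_laws 1 3 E 1 θ hE one_pos hθ l₀ x₀ ε hε
    refine ⟨r₀, fun r hr C => ?_⟩
    obtain ⟨X₀, hX₀⟩ := Filter.eventually_atTop.1 ((h r hr C).and (Filter.eventually_ge_atTop 1))
    refine ⟨X₀, fun X hX k hk hkE hV Z Y hY => ?_⟩
    obtain ⟨h1, h2⟩ := hX₀ X hX
    exact h1 (f k) (sys k hk _ (hone X h2) hkE) (Or.inl hV) (noTr k _) Z Y hY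
  · obtain ⟨r₀, _, h⟩ := Pool.Agent.Q25.UReg.poly_reg 1 3 E θ hE hθ
    refine ⟨r₀, fun r hr C ε hε => ?_⟩
    obtain ⟨c, hc, h1⟩ := h r hr C ε hε
    refine ⟨c, hc, fun δ hδ => ?_⟩
    obtain ⟨B, hB⟩ := h1 δ hδ
    obtain ⟨X₀, hX₀⟩ := Filter.eventually_atTop.1 (hB.and (Filter.eventually_ge_atTop 1))
    refine ⟨B, X₀, fun X hX k hk hkE hV u Y hXY hYX hYu A hA => ?_⟩
    obtain ⟨h1, h2⟩ := hX₀ X hX
    exact h1 (f k) (sys k hk _ (hone X h2) hkE) (Or.inl hV) u Y hXY hYX hYu A hA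

end Pool.Agent.Results.MP_4d57ea_nt.UniformLaws
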